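import Mathlib
import Pool.Agent.H37.Sun.Cv1

/-! Piece D: extraction of the congruences from the multiplication by `p` on the Jacobi quartic
(Coster - van Hamme). -/

namespace Pool.Agent.H15.Sun

open PowerSeries Pool.Agent.H37.Sun

section low
variable {R : Type*} [CommRing R]

/-- coefficients of `f` below `m` are divisible by `q` -/
def Low (q : R) (m : ℕ) (f : PowerSeries R) : Prop := ∀ i < m, q ∣ coeff i f

theorem Low.mul {q : R} {m : ℕ} {f : PowerSeries R} (h : Low q m f) (g : PowerSeries R) :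
    Low q m (f * g) := by
  intro i hi
  rw [coeff_mul]
  refine Finset.dvd_sum fun ab hab => ?_
  have := Finset.HasAntidiagonal.mem_antidiagonal.mp hab
  exact Dvd.dvd.mul_right (h _ (by omega)) _

theorem Low.of_mul_unit {q : R} {m : ℕ} {f u : PowerSeries R} (hu : IsUnit u)
    (h : Low q m (f * u)) : Low q m f := by
  obtain ⟨v, hv⟩ := hu.exists_right_inv
  have := h.mul v
  rwa [mul_assoc, hv, mul_one] at this

theorem dvd_sum_sub_one {ι : Type*} [DecidableEq ι] (s : Finset ι) (f : ι → R) (q : R) (a : ι)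
    (ha : a ∈ s) (h : ∀ c ∈ s, c ≠ a → q ∣ f c) : q ∣ (∑ c ∈ s, f c) - f a := by
  rw [← Finset.add_sum_erase s f ha, add_sub_cancel_left]
  refine Finset.dvd_sum fun c hc => ?_
  rw [Finset.mem_erase] at hc
  exact h c hc.2 hc.1

theorem dvd_sum_sub_two {ι : Type*} [DecidableEq ι] (s : Finset ι) (f : ι → R) (q : R) (a b : ι)
    (ha : a ∈ s) (hb : b ∈ s) (hab : a ≠ b) (h : ∀ c ∈ s, c ≠ a → c ≠ b → q ∣ f c) :
    q ∣ (∑ c ∈ s, f c) - (f a + f b) := by
  rw [← Finset.add_sum_erase s f ha,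
    ← Finset.add_sum_erase (s.erase a) f (Finset.mem_erase.2 ⟨hab.symm, hb⟩), ← add_assoc,
    add_sub_cancel_left]
  refine Finset.dvd_sum fun c hc => ?_
  rw [Finset.mem_erase, Finset.mem_erase] at hc
  exact h c hc.2.2 hc.2.1 hc.1

end low

section
variable {R : Type*} [CommRing R] {k : Type*} [Field k]

structure Dat (p n : ℕ) (π : R →+* k) (z z' ct a : R) (τ ti ρ σ : PowerSeries R)
    (N D : Polynomial R) (r : ℕ → R) : Prop where
  hker : ∀ x, π x = 0 → (p : R) ∣ x
  hunit : ∀ x, π x ≠ 0 → IsUnit x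
  hp : p = 2 * n + 1
  h3 : 3 < p
  hτ : τ ^ 2 = 1 - 2 * C z * X + X ^ 2
  hti : τ * ti = 1
  P : Pt τ z' ((p : R) * ct) ρ σ
  hNd : N.natDegree ≤ p
  hDd : D.natDegree ≤ p
  hN : (N : PowerSeries R) = X * ρ ^ 2 * (D : PowerSeries R)
  ha : a ^ 2 = 1
  hrev : ∀ i ≤ p, N.coeff i = a * D.coeff (p - i)
  hprim : ∃ i, π (D.coeff i) ≠ 0
  hr : ∀ j < n, (2 * (j : R) + 1) * r j = coeff j ti

namespace Dat

variable [IsDomain R] [CharZero R] {p n : ℕ} [Fact p.Prime] [CharP k p] {π : R →+* k}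
  {z z' ct a : R} {τ ti ρ σ : PowerSeries R} {N D : Polynomial R} {r : ℕ → R}
  (h : Dat p n π z z' ct a τ ti ρ σ N D r)
include h

omit [IsDomain R] [CharZero R] [Fact p.Prime] in
theorem unit_nat (m : ℕ) (hm : ¬ p ∣ m) : IsUnit (m : R) := by
  apply h.hunit
  rw [map_natCast, Ne, CharP.cast_eq_zero_iff k p]
  exact hm

omit [IsDomain R] [CharZero R] [Fact p.Prime] in
theorem unit_odd (j : ℕ) (hj : j ≤ 2 * n) (hne : j ≠ n) : IsUnit (2 * (j : R) + 1) := by
  have h1 := h.unit_nat (2 * j + 1) (by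
    have hp := h.hp
    rintro ⟨c, hc⟩
    have hc2 : c < 2 := by
      by_contra hcon
      have : p * 2 ≤ p * c := Nat.mul_le_mul_left p (by omega)
      omega
    interval_cases c <;> omega)
  push_cast at h1
  exact h1

omit [IsDomain R] [CharZero R] [Fact p.Prime] [CharP k p] in
theorem rho_rel : ρ + 2 * (X * dT ρ) = C ((p : R) * ct) * (σ * ti) := by
  linear_combination ti * h.P.e2 - (ρ + 2 * (X * dT ρ)) * h.hti

omit [IsDomain R] [CharZero R] [Fact p.Prime] [CharP k p] in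
theorem rho_coeff (j : ℕ) :
    (2 * (j : R) + 1) * coeff j ρ = (p : R) * (ct * coeff j (σ * ti)) := by
  have h1 := congrArg (coeff j) h.rho_rel
  rw [map_add, coeff_C_mul] at h1
  have h2 : (2 : PowerSeries R) = C (2 : R) := by rw [map_ofNat]
  rw [h2, coeff_C_mul] at h1
  rcases j with _ | j
  · rw [coeff_zero_X_mul] at h1
    push_cast
    linear_combination h1
  · rw [coeff_succ_X_mul, coeff_dT] at h1
    push_cast
    linear_combination h1

omit [IsDomain R] [CharZero R] [Fact p.Prime] in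
theorem rho_dvd (j : ℕ) (hj : j ≤ 2 * n) (hne : j ≠ n) : (p : R) ∣ coeff j ρ := by
  have h1 : (p : R) ∣ (2 * (j : R) + 1) * coeff j ρ := by
    rw [h.rho_coeff j]
    exact dvd_mul_right _ _
  exact (IsUnit.dvd_mul_left (h.unit_odd j hj hne)).mp h1

omit [CharP k p] in
theorem rho_n : coeff n ρ = ct * coeff n (σ * ti) := by
  have h1 := h.rho_coeff n
  have hp := h.hp
  have h2 : (2 * (n : R) + 1) = (p : R) := by rw [hp]; push_cast; ring
  rw [h2] at h1
  have h0 : (p : R) ≠ 0 := by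
    exact_mod_cast (Fact.out : p.Prime).ne_zero
  exact mul_left_cancel₀ h0 h1

omit [IsDomain R] [CharZero R] [Fact p.Prime] in
theorem s_low (i : ℕ) (hi : i ≤ n) : (p : R) ^ 2 ∣ coeff i (X * ρ ^ 2) := by
  rcases i with _ | i
  · rw [coeff_zero_X_mul]
    exact dvd_zero _
  · rw [coeff_succ_X_mul, pow_two ρ, coeff_mul]
    refine Finset.dvd_sum fun c hc => ?_
    have := Finset.HasAntidiagonal.mem_antidiagonal.mp hc
    rw [pow_two]
    exact mul_dvd_mul (h.rho_dvd _ (by omega) (by omega)) (h.rho_dvd _ (by omega) (by omega))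

omit [IsDomain R] [CharZero R] [Fact p.Prime] in
theorem s_mid (j : ℕ) (hj : j < n) :
    (p : R) ^ 2 ∣ coeff (n + 1 + j) (X * ρ ^ 2) - 2 * coeff j ρ * coeff n ρ := by
  have e : n + 1 + j = (n + j) + 1 := by ring
  rw [e, coeff_succ_X_mul, pow_two ρ, coeff_mul]
  have h1 := dvd_sum_sub_two (Finset.HasAntidiagonal.antidiagonal (n + j))
    (fun c : ℕ × ℕ => coeff c.1 ρ * coeff c.2 ρ) ((p : R) ^ 2) (n, j) (j, n)
    (by simp) (by simp [add_comm]) (by simp; omega) (by
      intro c hc h1 h2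
      have h3 := Finset.HasAntidiagonal.mem_antidiagonal.mp hc
      have h4 : c.1 ≠ n := by
        intro h5
        apply h1
        ext
        · exact h5
        · simp only; omega
      have h5 : c.2 ≠ n := by
        intro h5
        apply h2
        ext
        · simp only; omega
        · exact h5
      rw [pow_two]
      exact mul_dvd_mul (h.rho_dvd _ (by omega) h4) (h.rho_dvd _ (by omega) h5))
  have e2 : (2 * coeff j ρ * coeff n ρ) = coeff n ρ * coeff j ρ + coeff j ρ * coeff n ρ := by ring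
  rw [e2]
  exact h1

omit [IsDomain R] [CharZero R] [Fact p.Prime] in
theorem s_top : (p : R) ^ 2 ∣ coeff p (X * ρ ^ 2) - coeff n ρ ^ 2 := by
  have hp := h.hp
  have e : p = (n + n) + 1 := by omega
  have e2 : coeff p (X * ρ ^ 2) = coeff (n + n) (ρ * ρ) := by
    rw [e, coeff_succ_X_mul, pow_two ρ]
  rw [e2, coeff_mul]
  have h1 := dvd_sum_sub_one (Finset.HasAntidiagonal.antidiagonal (n + n))
    (fun c : ℕ × ℕ => coeff c.1 ρ * coeff c.2 ρ) ((p : R) ^ 2) (n, n)
    (by simp) (by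
      intro c hc h1
      have h3 := Finset.HasAntidiagonal.mem_antidiagonal.mp hc
      have h4 : c.1 ≠ n := by
        intro h5
        apply h1
        ext
        · exact h5
        · simp only; omega
      rw [pow_two]
      exact mul_dvd_mul (h.rho_dvd _ (by omega) h4) (h.rho_dvd _ (by omega) (by omega)))
  rw [pow_two (coeff n ρ)]
  exact h1

omit [IsDomain R] [CharZero R] [Fact p.Prime] in
theorem s_dvd (i : ℕ) (hi : i < p) : (p : R) ∣ coeff i (X * ρ ^ 2) := by
  have hp := h.hp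
  have hpp : (p : R) ∣ (p : R) ^ 2 := by rw [pow_two]; exact dvd_mul_right _ _
  by_cases hn : i ≤ n
  · exact hpp.trans (h.s_low i hn)
  · obtain ⟨j, rfl⟩ : ∃ j, i = n + 1 + j := ⟨i - (n + 1), by omega⟩
    have hj : j < n := by omega
    have h1 := hpp.trans (h.s_mid j hj)
    have h2 : (p : R) ∣ 2 * coeff j ρ * coeff n ρ :=
      Dvd.dvd.mul_right (Dvd.dvd.mul_left (h.rho_dvd j (by omega) (by omega)) _) _
    have h3 := dvd_add h1 h2
    rwa [sub_add_cancel] at h3

omit [IsDomain R] [CharZero R] [Fact p.Prime] [CharP k p] in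
theorem N_coeff (i : ℕ) : N.coeff i
    = ∑ c ∈ Finset.HasAntidiagonal.antidiagonal i, coeff c.1 (X * ρ ^ 2) * D.coeff c.2 := by
  have h1 := congrArg (coeff i) h.hN
  rw [Polynomial.coeff_coe, coeff_mul] at h1
  rw [h1]
  refine Finset.sum_congr rfl fun c _ => ?_
  rw [Polynomial.coeff_coe]

omit [IsDomain R] [CharZero R] [Fact p.Prime] in
theorem N_dvd (i : ℕ) (hi : i < p) : (p : R) ∣ N.coeff i := by
  rw [h.N_coeff]
  refine Finset.dvd_sum fun c hc => ?_
  have := Finset.HasAntidiagonal.mem_antidiagonal.mp hc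
  exact Dvd.dvd.mul_right (h.s_dvd _ (by omega)) _

omit [IsDomain R] [CharZero R] [Fact p.Prime] [CharP k p] in
theorem D_eq (j : ℕ) (hj : j ≤ p) : D.coeff j = a * N.coeff (p - j) := by
  have h1 := h.hrev (p - j) (by omega)
  have e : p - (p - j) = j := by omega
  rw [e] at h1
  rw [h1]
  linear_combination -(D.coeff j) * h.ha

omit [IsDomain R] [CharZero R] [Fact p.Prime] in
theorem D_dvd (j : ℕ) (hj : 1 ≤ j) : (p : R) ∣ D.coeff j := by
  by_cases hjp : j ≤ p
  · rw [h.D_eq j hjp]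
    exact Dvd.dvd.mul_left (h.N_dvd _ (by omega)) _
  · rw [Polynomial.coeff_eq_zero_of_natDegree_lt (lt_of_le_of_lt h.hDd (by omega))]
    exact dvd_zero _

omit [IsDomain R] [CharZero R] [Fact p.Prime] in
theorem pi_of_dvd {y : R} (hy : (p : R) ∣ y) : π y = 0 := by
  have _ := h.hp
  obtain ⟨c, rfl⟩ := hy
  rw [map_mul, map_natCast, CharP.cast_eq_zero k p, zero_mul]

omit [IsDomain R] [CharZero R] [Fact p.Prime] in
theorem D0_pi : π (D.coeff 0) ≠ 0 := by
  obtain ⟨i, hi⟩ := h.hprim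
  rcases i with _ | i
  · exact hi
  · exact absurd (h.pi_of_dvd (h.D_dvd (i + 1) (by omega))) hi

omit [IsDomain R] [CharZero R] [Fact p.Prime] in
theorem D0_unit : IsUnit (D.coeff 0) := h.hunit _ h.D0_pi

omit [IsDomain R] [CharZero R] [Fact p.Prime] in
theorem N_mod (i : ℕ) (hi : i ≤ p) :
    (p : R) ^ 2 ∣ N.coeff i - coeff i (X * ρ ^ 2) * D.coeff 0 := by
  rw [h.N_coeff]
  refine dvd_sum_sub_one (Finset.HasAntidiagonal.antidiagonal i)
    (fun c : ℕ × ℕ => coeff c.1 (X * ρ ^ 2) * D.coeff c.2) ((p : R) ^ 2) (i, 0) (by simp) ?_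
  intro c hc h1
  have h3 := Finset.HasAntidiagonal.mem_antidiagonal.mp hc
  have h4 : 1 ≤ c.2 := by
    by_contra hcon
    apply h1
    ext
    · simp only; omega
    · simp only; omega
  rw [pow_two]
  exact mul_dvd_mul (h.s_dvd _ (by omega)) (h.D_dvd _ h4)

omit [IsDomain R] [CharZero R] [Fact p.Prime] in
theorem rho_sq : (p : R) ^ 2 ∣ coeff n ρ ^ 2 - a := by
  have h1 := h.N_mod p le_rfl
  have h2 := h.hrev p le_rfl
  rw [Nat.sub_self] at h2
  rw [h2] at h1
  have h3 := h.s_top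
  have h4 : (p : R) ^ 2 ∣ D.coeff 0 * (coeff n ρ ^ 2 - a) := by
    obtain ⟨u, hu⟩ := h1
    obtain ⟨v, hv⟩ := h3
    exact ⟨-(u + D.coeff 0 * v), by linear_combination (-1) * hu - D.coeff 0 * hv⟩
  exact (IsUnit.dvd_mul_left h.D0_unit).mp h4

omit [IsDomain R] [CharZero R] [Fact p.Prime] in
theorem sigma_low : Low ((p : R) ^ 2) (n + 1) (σ - 1) := by
  have hu : IsUnit (σ + 1) := by
    rw [PowerSeries.isUnit_iff_constantCoeff, map_add, h.P.e4, map_one]
    have h1 := h.unit_nat 2 (by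
      intro hd
      have := Nat.le_of_dvd (by norm_num) hd
      have := h.h3
      omega)
    have e : (1 : R) + 1 = ((2 : ℕ) : R) := by norm_num
    rw [e]
    exact h1
  apply Low.of_mul_unit hu
  have h1 : (σ - 1) * (σ + 1) = (X * ρ ^ 2) * (X * ρ ^ 2 - 2 * C z') := by
    linear_combination h.P.e1
  rw [h1]
  apply Low.mul
  intro i hi
  exact h.s_low i (by omega)

omit [IsDomain R] [CharZero R] [Fact p.Prime] in
theorem sti (j : ℕ) (hj : j ≤ n) : (p : R) ^ 2 ∣ coeff j (σ * ti) - coeff j ti := by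
  have h1 := h.sigma_low.mul ti j (by omega)
  have h2 : (σ - 1) * ti = σ * ti - ti := by ring
  rwa [h2, map_sub] at h1

omit [CharP k p] in
variable [CharP k p] in
theorem rho_n_mod : (p : R) ^ 2 ∣ coeff n ρ - ct * coeff n ti := by
  rw [h.rho_n]
  obtain ⟨u, hu⟩ := h.sti n le_rfl
  exact ⟨ct * u, by linear_combination ct * hu⟩

omit [IsDomain R] [CharZero R] [Fact p.Prime] in
theorem rho_r (j : ℕ) (hj : j < n) : (p : R) ^ 2 ∣ coeff j ρ - (p : R) * ct * r j := by
  have h1 := h.rho_coeff j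
  have h2 := h.hr j hj
  obtain ⟨u, hu⟩ := h.sti j hj.le
  have h3 : (p : R) ^ 2 ∣ (2 * (j : R) + 1) * (coeff j ρ - (p : R) * ct * r j) := by
    refine ⟨(p : R) * ct * u, ?_⟩
    linear_combination h1 - (p : R) * ct * h2 + (p : R) * ct * hu
  exact (IsUnit.dvd_mul_left (h.unit_odd j (by omega) (by omega))).mp h3

/-- (D1) -/
theorem D1 : (p : R) ^ 2 ∣ (ct * coeff n ti) ^ 2 - a := by
  obtain ⟨u, hu⟩ := h.rho_n_mod
  obtain ⟨v, hv⟩ := h.rho_sq
  refine ⟨v - u * (coeff n ρ + ct * coeff n ti), ?_⟩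
  linear_combination hv - (coeff n ρ + ct * coeff n ti) * hu

omit [IsDomain R] [CharZero R] [Fact p.Prime] in
theorem D_low (j : ℕ) (hj : n + 1 ≤ j) (hjp : j ≤ p) : (p : R) ^ 2 ∣ D.coeff j := by
  have hp := h.hp
  rw [h.D_eq j hjp]
  apply Dvd.dvd.mul_left
  have h1 := h.N_mod (p - j) (by omega)
  have h2 := Dvd.dvd.mul_right (h.s_low (p - j) (by omega)) (D.coeff 0)
  have h3 := dvd_add h1 h2
  rwa [sub_add_cancel] at h3

omit [IsDomain R] [CharZero R] [Fact p.Prime] in
theorem N_mid (j : ℕ) (hj : j < n) :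
    (p : R) ^ 2 ∣ N.coeff (n + 1 + j) - 2 * coeff j ρ * coeff n ρ * D.coeff 0 := by
  have hp := h.hp
  obtain ⟨u, hu⟩ := h.N_mod (n + 1 + j) (by omega)
  obtain ⟨v, hv⟩ := h.s_mid j hj
  exact ⟨u + v * D.coeff 0, by linear_combination hu + D.coeff 0 * hv⟩

omit [IsDomain R] [CharZero R] [Fact p.Prime] in
theorem D_mid (j : ℕ) (hj : j < n) :
    (p : R) ^ 2 ∣ D.coeff (n - j) - 2 * a * coeff j ρ * coeff n ρ * D.coeff 0 := by
  have hp := h.hp
  rw [h.D_eq (n - j) (by omega)]
  have e : p - (n - j) = n + 1 + j := by omega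
  rw [e]
  obtain ⟨u, hu⟩ := h.N_mid j hj
  exact ⟨a * u, by linear_combination a * hu⟩

omit [IsDomain R] [CharZero R] [Fact p.Prime] in
theorem D_eval (x : R) : (p : R) ^ 2 ∣ D.eval x
    - D.coeff 0 * (1 + 2 * a * coeff n ρ * ∑ j ∈ Finset.range n, coeff j ρ * x ^ (n - j)) := by
  have hp := h.hp
  have h1 : D.eval x = ∑ i ∈ Finset.range ((n + 1) + (n + 1)), D.coeff i * x ^ i :=
    Polynomial.eval_eq_sum_range' (lt_of_le_of_lt h.hDd (by omega)) x
  rw [h1, Finset.sum_range_add, Finset.sum_range_succ', pow_zero, mul_one,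
    ← Finset.sum_range_reflect (fun i => D.coeff (i + 1) * x ^ (i + 1)) n]
  have h2 : (p : R) ^ 2 ∣ ∑ x_1 ∈ Finset.range (n + 1), D.coeff (n + 1 + x_1) * x ^ (n + 1 + x_1) := by
    refine Finset.dvd_sum fun i hi => ?_
    have := Finset.mem_range.mp hi
    exact Dvd.dvd.mul_right (h.D_low _ (by omega) (by omega)) _
  have h3 : (p : R) ^ 2 ∣ (∑ j ∈ Finset.range n, D.coeff (n - 1 - j + 1) * x ^ (n - 1 - j + 1))
      - D.coeff 0 * (2 * a * coeff n ρ * ∑ j ∈ Finset.range n, coeff j ρ * x ^ (n - j)) := by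
    rw [Finset.mul_sum, Finset.mul_sum, ← Finset.sum_sub_distrib]
    refine Finset.dvd_sum fun j hj => ?_
    have hj' := Finset.mem_range.mp hj
    have e : n - 1 - j + 1 = n - j := by omega
    rw [e]
    obtain ⟨u, hu⟩ := h.D_mid j hj'
    exact ⟨u * x ^ (n - j), by linear_combination x ^ (n - j) * hu⟩
  obtain ⟨u, hu⟩ := h2
  obtain ⟨v, hv⟩ := h3
  exact ⟨u + v, by linear_combination hu + hv⟩

omit [IsDomain R] [CharZero R] [Fact p.Prime] in
theorem N_eval (x : R) : (p : R) ^ 2 ∣ N.eval x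
    - D.coeff 0 * (a * x ^ p
      + 2 * coeff n ρ * x ^ (n + 1) * ∑ j ∈ Finset.range n, coeff j ρ * x ^ j) := by
  have hp := h.hp
  have h1 : N.eval x = ∑ i ∈ Finset.range ((n + 1) + (n + 1)), N.coeff i * x ^ i :=
    Polynomial.eval_eq_sum_range' (lt_of_le_of_lt h.hNd (by omega)) x
  rw [h1, Finset.sum_range_add, Finset.sum_range_succ (fun i => N.coeff (n + 1 + i) * x ^ (n + 1 + i))]
  have h2 : (p : R) ^ 2 ∣ ∑ i ∈ Finset.range (n + 1), N.coeff i * x ^ i := by
    refine Finset.dvd_sum fun i hi => ?_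
    have hi' := Finset.mem_range.mp hi
    apply Dvd.dvd.mul_right
    have h1 := h.N_mod i (by omega)
    have h2 := Dvd.dvd.mul_right (h.s_low i (by omega)) (D.coeff 0)
    have h3 := dvd_add h1 h2
    rwa [sub_add_cancel] at h3
  have h3 : (p : R) ^ 2 ∣ (∑ j ∈ Finset.range n, N.coeff (n + 1 + j) * x ^ (n + 1 + j))
      - D.coeff 0 * (2 * coeff n ρ * x ^ (n + 1) * ∑ j ∈ Finset.range n, coeff j ρ * x ^ j) := by
    rw [Finset.mul_sum, Finset.mul_sum, ← Finset.sum_sub_distrib]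
    refine Finset.dvd_sum fun j hj => ?_
    have hj' := Finset.mem_range.mp hj
    obtain ⟨u, hu⟩ := h.N_mid j hj'
    refine ⟨u * x ^ (n + 1 + j), ?_⟩
    rw [pow_add]
    linear_combination x ^ (n + 1) * x ^ j * hu
  have e : n + 1 + n = p := by omega
  have h4 := h.hrev p le_rfl
  rw [Nat.sub_self] at h4
  rw [e, h4]
  obtain ⟨u, hu⟩ := h2
  obtain ⟨v, hv⟩ := h3
  exact ⟨u + v, by linear_combination hu + hv⟩

omit [IsDomain R] [CharZero R] [Fact p.Prime] in
theorem U_dvd (x : R) : (p : R) ∣ ∑ j ∈ Finset.range n, coeff j ρ * x ^ (n - j) := by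
  refine Finset.dvd_sum fun j hj => ?_
  have := Finset.mem_range.mp hj
  exact Dvd.dvd.mul_right (h.rho_dvd j (by omega) (by omega)) _

omit [IsDomain R] [CharZero R] [Fact p.Prime] in
theorem V_dvd (x : R) : (p : R) ∣ ∑ j ∈ Finset.range n, coeff j ρ * x ^ j := by
  refine Finset.dvd_sum fun j hj => ?_
  have := Finset.mem_range.mp hj
  exact Dvd.dvd.mul_right (h.rho_dvd j (by omega) (by omega)) _

omit [IsDomain R] [CharZero R] [Fact p.Prime] in
/-- the value of `D` is congruent to its constant coefficient -/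
theorem D_eval_mod (x : R) : (p : R) ∣ D.eval x - D.coeff 0 := by
  obtain ⟨u, hu⟩ := h.D_eval x
  obtain ⟨v, hv⟩ := h.U_dvd x
  rw [hv] at hu
  exact ⟨p * u + D.coeff 0 * (2 * a * coeff n ρ * v), by linear_combination hu⟩

omit [IsDomain R] [CharZero R] [Fact p.Prime] in
/-- (D2) first part -/
theorem D2_unit (x : R) : IsUnit (D.eval x) := by
  apply h.hunit
  intro h0
  have h1 := h.pi_of_dvd (h.D_eval_mod x)
  rw [map_sub, h0, zero_sub, neg_eq_zero] at h1
  exact h.D0_pi h1

omit [IsDomain R] [CharZero R] [Fact p.Prime] in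
/-- (D2) second part -/
theorem D2_modp (x : R) : (p : R) ∣ N.eval x - a * x ^ p * D.eval x := by
  obtain ⟨u, hu⟩ := h.N_eval x
  obtain ⟨v, hv⟩ := h.V_dvd x
  obtain ⟨w, hw⟩ := h.D_eval_mod x
  rw [hv] at hu
  exact ⟨p * u + D.coeff 0 * (2 * coeff n ρ * x ^ (n + 1) * v) - a * x ^ p * w, by
    linear_combination hu - a * x ^ p * hw⟩

/-- (D2) fourth part -/
theorem D2_main (x : R) : (p : R) ^ 2 ∣
    x * ct ^ 2 * (x ^ n * coeff n ti
      - (p : R) * ∑ j ∈ Finset.range n, (x ^ (2 * n - j) - x ^ j) * r j) ^ 2 * D.eval x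
      - N.eval x := by
  have hp := h.hp
  set G := x ^ n * coeff n ti
      - (p : R) * ∑ j ∈ Finset.range n, (x ^ (2 * n - j) - x ^ j) * r j with hG
  set U := ∑ j ∈ Finset.range n, coeff j ρ * x ^ (n - j) with hU
  set V := ∑ j ∈ Finset.range n, coeff j ρ * x ^ j with hV
  have hGG : (p : R) ^ 2 ∣ ct * G - (x ^ n * coeff n ρ - x ^ n * U + V) := by
    have h1 : (p : R) ^ 2 ∣ (∑ j ∈ Finset.range n, (x ^ (2 * n - j) - x ^ j)
        * (coeff j ρ - (p : R) * ct * r j)) := by
      refine Finset.dvd_sum fun j hj => ?_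
      exact Dvd.dvd.mul_left (h.rho_r j (Finset.mem_range.mp hj)) _
    have h2 : (∑ j ∈ Finset.range n, (x ^ (2 * n - j) - x ^ j)
        * (coeff j ρ - (p : R) * ct * r j))
        = (x ^ n * U - V) - (p : R) * ct
          * ∑ j ∈ Finset.range n, (x ^ (2 * n - j) - x ^ j) * r j := by
      rw [hU, hV, Finset.mul_sum, Finset.mul_sum, ← Finset.sum_sub_distrib,
        ← Finset.sum_sub_distrib]
      refine Finset.sum_congr rfl fun j hj => ?_
      have hj' := Finset.mem_range.mp hj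
      have e : 2 * n - j = n + (n - j) := by omega
      rw [e, pow_add]
      ring
    rw [h2] at h1
    obtain ⟨u, hu⟩ := h1
    obtain ⟨v, hv⟩ := h.rho_n_mod
    refine ⟨u - x ^ n * v, ?_⟩
    rw [hG]
    linear_combination hu - x ^ n * hv
  obtain ⟨g, hg⟩ := hGG
  obtain ⟨d, hd⟩ := h.D_eval x
  obtain ⟨ν, hν⟩ := h.N_eval x
  obtain ⟨e, he⟩ := h.rho_sq
  obtain ⟨u, hu⟩ := h.U_dvd x
  obtain ⟨v, hv⟩ := h.V_dvd x
  rw [← hU] at hd hu
  rw [← hV] at hν hv
  have hxp : x ^ p = x * (x ^ n) ^ 2 := by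
    rw [hp]
    ring
  have hxn : x ^ (n + 1) = x * x ^ n := by ring
  rw [hxp, hxn] at hν
  set y := x ^ n with hy
  set ρn := coeff n ρ with hρn
  set D0 := D.coeff 0 with hD0
  -- pass to the quotient
  let q : R →+* R ⧸ Ideal.span {(p : R) ^ 2} := Ideal.Quotient.mk _
  have hq0 : ∀ w : R, (p : R) ^ 2 ∣ w ↔ q w = 0 := by
    intro w
    rw [Ideal.Quotient.eq_zero_iff_mem, Ideal.mem_span_singleton]
  have hqp : q ((p : R) ^ 2) = 0 := (hq0 _).mp dvd_rfl
  rw [hq0]
  have g1 : q ct * q G = q y * q ρn - q y * q U + q V := by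
    have := congrArg q hg
    rw [map_mul, hqp, zero_mul] at this
    simp only [map_sub, map_mul, map_add] at this
    linear_combination this
  have d1 : q (D.eval x) = q D0 * (1 + 2 * q a * q ρn * q U) := by
    have := congrArg q hd
    rw [map_mul q ((p : R) ^ 2), hqp, zero_mul] at this
    simp only [map_sub, map_mul, map_add, map_one, map_ofNat] at this
    linear_combination this
  have n1 : q (N.eval x) = q D0 * (q a * (q x * q y ^ 2) + 2 * q ρn * (q x * q y) * q V) := by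
    have := congrArg q hν
    rw [map_mul q ((p : R) ^ 2), hqp, zero_mul] at this
    simp only [map_sub, map_mul, map_add, map_pow, map_ofNat] at this
    linear_combination this
  have e1 : q ρn ^ 2 = q a := by
    have := congrArg q he
    rw [map_mul q ((p : R) ^ 2), hqp, zero_mul, map_sub, map_pow] at this
    linear_combination this
  have a1 : q a ^ 2 = 1 := by rw [← map_pow, h.ha, map_one]
  have uu : q U ^ 2 = 0 := by
    rw [← map_pow, hu, mul_pow, map_mul, hqp, zero_mul]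
  have vv : q V ^ 2 = 0 := by
    rw [← map_pow, hv, mul_pow, map_mul, hqp, zero_mul]
  have uv : q U * q V = 0 := by
    rw [← map_mul, hu, hv]
    have : (p : R) * u * ((p : R) * v) = (p : R) ^ 2 * (u * v) := by ring
    rw [this, map_mul, hqp, zero_mul]
  have fin : q (x * ct ^ 2 * G ^ 2 * D.eval x - N.eval x)
      = q x * (q ct * q G) ^ 2 * q (D.eval x) - q (N.eval x) := by
    simp only [map_sub, map_mul, map_pow]
    ring
  rw [fin, g1, d1, n1]
  generalize q x = X at *
  generalize q y = Y at *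
  generalize q ρn = S at *
  generalize q U = A at *
  generalize q V = B at *
  generalize q D0 = E at *
  generalize q a = F at *
  have sq : (Y * S - Y * A + B) ^ 2 = Y ^ 2 * F - 2 * Y ^ 2 * S * A + 2 * Y * S * B := by
    linear_combination Y ^ 2 * e1 + Y ^ 2 * uu + vv - 2 * Y * uv
  rw [sq]
  linear_combination (2 * X * Y ^ 2 * E * S * A) * a1
    + (-4 * X * Y ^ 2 * E * F * S ^ 2) * uu + (4 * X * Y * E * F * S ^ 2) * uv

omit [IsDomain R] [CharZero R] [Fact p.Prime] [CharP k p] in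
/-- the differential equation in polynomial form -/
theorem ode : Polynomial.X * (1 - Polynomial.C (2 * z) * Polynomial.X + Polynomial.X ^ 2)
      * (Polynomial.derivative N * D - N * Polynomial.derivative D) ^ 2
    = Polynomial.C (((p : R) * ct) ^ 2) * N * D
      * (D ^ 2 - Polynomial.C (2 * z') * N * D + N ^ 2) := by
  apply Polynomial.coe_injective R
  have hd1 : ((Polynomial.derivative N : Polynomial R) : PowerSeries R)
      = dT (N : PowerSeries R) := (PowerSeries.derivative_coe N).symm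
  have hd2 : ((Polynomial.derivative D : Polynomial R) : PowerSeries R)
      = dT (D : PowerSeries R) := (PowerSeries.derivative_coe D).symm
  have hd : dT (N : PowerSeries R)
      = dT (X * ρ ^ 2) * (D : PowerSeries R) + X * ρ ^ 2 * dT (D : PowerSeries R) := by
    rw [h.hN, dT_mul]
  have hs := h.P.ds
  have h1 := h.P.e1
  have h2 := h.hτ
  have hN := h.hN
  simp only [Polynomial.coe_mul, Polynomial.coe_add, Polynomial.coe_sub, Polynomial.coe_one,
    Polynomial.coe_pow, Polynomial.coe_X, Polynomial.coe_C, hd1, hd2, hd]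
  simp only [map_mul, map_ofNat, map_pow, map_natCast] at hs ⊢
  rw [hN]
  generalize dT (D : PowerSeries R) = D1 at *
  generalize dT (X * ρ ^ 2) = F1 at *
  generalize (D : PowerSeries R) = D0 at *
  have hs2 : τ ^ 2 * F1 ^ 2 = ((p : PowerSeries R) * C ct) ^ 2 * ρ ^ 2 * σ ^ 2 := by
    linear_combination (τ * F1 + (p : PowerSeries R) * C ct * (ρ * σ)) * hs
  rw [h1, h2] at hs2
  linear_combination (X * D0 ^ 4) * hs2

omit [IsDomain R] [CharZero R] [Fact p.Prime] [CharP k p] in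
theorem pi_x {x : R} (hx : x ^ 2 - 2 * z * x + 1 = 0) : π x ≠ 0 := by
  have _ := h.hp
  intro h0
  have h1 := congrArg π hx
  simp only [map_add, map_sub, map_mul, map_pow, h0, map_one, map_zero, mul_zero] at h1
  norm_num at h1

omit [IsDomain R] [CharZero R] [Fact p.Prime] [CharP k p] in
theorem pi_a : π a ^ 2 = 1 := by rw [← map_pow, h.ha, map_one]

omit [IsDomain R] [CharZero R] [Fact p.Prime] in
/-- the value of `N` is a unit -/
theorem N_pi {x : R} (hx : x ^ 2 - 2 * z * x + 1 = 0) : π (N.eval x) ≠ 0 := by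
  have h1 := h.pi_of_dvd (h.D2_modp x)
  rw [map_sub, map_mul, map_mul, map_pow, sub_eq_zero] at h1
  rw [h1]
  have ha : π a ≠ 0 := by
    intro h0
    have := h.pi_a
    rw [h0] at this
    norm_num at this
  have hD : π (D.eval x) ≠ 0 := ((h.D2_unit x).map π).ne_zero
  exact mul_ne_zero (mul_ne_zero ha (pow_ne_zero _ (h.pi_x hx))) hD

/-- (D2) third part -/
theorem D2_eq {x : R} (hx : x ^ 2 - 2 * z * x + 1 = 0) (hct : ct ≠ 0) :
    N.eval x ^ 2 - 2 * z' * N.eval x * D.eval x + D.eval x ^ 2 = 0 := by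
  have h1 := congrArg (Polynomial.eval x) h.ode
  simp only [Polynomial.eval_mul, Polynomial.eval_add, Polynomial.eval_sub, Polynomial.eval_pow,
    Polynomial.eval_C, Polynomial.eval_X, Polynomial.eval_one] at h1
  have hx2 : 1 - 2 * z * x + x ^ 2 = 0 := by linear_combination hx
  rw [hx2, mul_zero, zero_mul] at h1
  have h0 : (p : R) ≠ 0 := by
    exact_mod_cast (Fact.out : p.Prime).ne_zero
  have hN : N.eval x ≠ 0 := by
    intro h2
    apply h.N_pi hx
    rw [h2, map_zero]
  have hD : D.eval x ≠ 0 := (h.D2_unit x).ne_zero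
  have h2 : ((p : R) * ct) ^ 2 * N.eval x * D.eval x ≠ 0 :=
    mul_ne_zero (mul_ne_zero (pow_ne_zero _ (mul_ne_zero h0 hct)) hN) hD
  have h3 := (mul_eq_zero.mp h1.symm).resolve_left h2
  linear_combination h3

/-- (D3) -/
theorem D3 {x : R} (hx : x ^ 2 - 2 * z * x + 1 = 0) (hct : ct ≠ 0) :
    (p : R) ∣ z' - a * z ^ p := by
  apply h.hker
  have h1 := congrArg π (h.D2_eq hx hct)
  have h2 := h.pi_of_dvd (h.D2_modp x)
  have hD : π (D.eval x) ≠ 0 := ((h.D2_unit x).map π).ne_zero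
  have hX := h.pi_x hx
  have hx' := congrArg π hx
  have ha := h.pi_a
  simp only [map_sub, map_add, map_mul, map_pow, map_ofNat, map_zero, map_one] at h1 h2 hx' ⊢
  have h2' : π (N.eval x) = π a * π x ^ p * π (D.eval x) := by linear_combination h2
  rw [h2'] at h1
  have h4 : π (D.eval x) ^ 2 * ((π x ^ p) ^ 2 - 2 * π z' * π a * π x ^ p + 1) = 0 := by
    linear_combination h1 - (π x ^ p) ^ 2 * π (D.eval x) ^ 2 * ha
  have h5 := (mul_eq_zero.mp h4).resolve_left (pow_ne_zero 2 hD)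
  have : ExpChar k p := ExpChar.prime Fact.out
  have h6 : (π x ^ 2 + 1) ^ p = (2 * π z * π x) ^ p := by
    congr 1
    linear_combination hx'
  rw [add_pow_expChar, one_pow, mul_pow, mul_pow] at h6
  have h2p : (2 : k) ^ p = 2 := by
    have h9 := map_ofNat (frobenius k p) 2
    rwa [frobenius_def] at h9
  rw [h2p] at h6
  have h7 : (π x ^ 2) ^ p = (π x ^ p) ^ 2 := by ring
  rw [h7] at h6
  have h8 : (2 * π x ^ p * π a) * (π z' - π a * π z ^ p) = 0 := by
    linear_combination h6 - h5 - 2 * π x ^ p * π z ^ p * ha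
  have h2k : (2 : k) ≠ 0 := by
    have := (h.unit_nat 2 (by
      intro hd
      have := Nat.le_of_dvd (by norm_num) hd
      have := h.h3
      omega)).map π
    rw [map_natCast] at this
    exact_mod_cast this.ne_zero
  have ha0 : π a ≠ 0 := by
    intro h0
    rw [h0] at ha
    norm_num at ha
  exact (mul_eq_zero.mp h8).resolve_left (mul_ne_zero (mul_ne_zero h2k (pow_ne_zero _ hX)) ha0)

end Dat

end

end Pool.Agent.H15.Sun
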